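import Pool.Agent.MWS.StmtsA

/-!
# Row MJE of block MWS (MP_23468a_al): the distributive law from join prime edges
-/

set_option autoImplicit false

namespace Pool.Agent.MWS.H81

open Pool.Agent.Helper14_MV Pool.Agent.Helper2_MV Pool.Agent.MVO Pool.Agent.MWL

theorem psi_le (ρ σ τ : FIC) : psi ρ σ τ ≤ τ :=
  FIC.sup_le (FIC.inf_le_right _ _) (FIC.inf_le_right _ _)

theorem psi_le_sup (ρ σ τ : FIC) : psi ρ σ τ ≤ FIC.sup ρ σ :=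
  FIC.sup_le (FIC.le_trans' (FIC.inf_le_left _ _) (FIC.le_sup_left _ _))
    (FIC.le_trans' (FIC.inf_le_left _ _) (FIC.le_sup_right _ _))

theorem le_psi {β ρ σ τ : FIC} (h : β ≤ ρ) (h' : β ≤ τ) : β ≤ psi ρ σ τ :=
  FIC.le_trans' (FIC.le_inf h h') (FIC.le_sup_left _ _)

theorem psi_nc {ρ σ τ : FIC} (h : NC2 τ) : NC2 (psi ρ σ τ) := fun h1 => h (psi_le ρ σ τ _ _ h1)

/-- **MJE** -/
theorem mje (nsp : NspStmt) : MjeStmt := by
  intro β hap hE ρ σ τ hρ hσ hτ nρ nσ nτ k B B' oB oB' tB tB' hsh hsup hr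
  have nsup : NC2 (FIC.sup ρ σ) := nsp β ρ σ hap hρ hσ nρ nσ
  have hβsup : β ≤ FIC.sup ρ σ := FIC.le_trans' hρ (FIC.le_sup_left _ _)
  obtain ⟨L, hL, hiff⟩ := hE k B B' oB oB' tB tB' hsh
  refine (hiff (psi ρ σ τ) (le_psi hρ hτ) (psi_nc nτ)).mpr fun e he => ?_
  have e1 := (hiff _ hβsup nsup).mp hsup e he
  have e2 := (hiff τ hτ nτ).mp hr e he
  rcases hL e he ρ σ hρ hσ nρ nσ e1 with h | h
  · exact FIC.le_sup_left (FIC.inf ρ τ) (FIC.inf σ τ) _ _ ⟨h, e2⟩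
  · exact FIC.le_sup_right (FIC.inf ρ τ) (FIC.inf σ τ) _ _ ⟨h, e2⟩

end Pool.Agent.MWS.H81
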