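import Pool.Agent.Helper81_MWS.MJE

/-!
# Row MJO of block MWS (MP_23468a_al): reduction to the same shapes
-/

set_option autoImplicit false

namespace Pool.Agent.MWS.H81

open Pool.Agent.Helper14_MV Pool.Agent.Helper2_MV Pool.Agent.MVO Pool.Agent.MWL

/-- **MJO** -/
theorem mjo (one : Pool.Agent.MVO.OneStmt) (law : Pool.Agent.MWL.LawStmt) (chn : ChnStmt)
    (ndn : NdnStmt) (lrn : LrnStmt) (shs : ShsStmt) : MjoStmt := by
  intro β hb hi hs ρ σ τ hρ hσ hτ nρ nσ nτ k B B' oB oB' tB tB' hsup hr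
  have hψτ := psi_le ρ σ τ
  have hψs := psi_le_sup ρ σ τ
  have hβψ : β ≤ psi ρ σ τ := le_psi hρ hτ
  have nψ : NC2 (psi ρ σ τ) := psi_nc nτ
  have claim : ∀ x, NS k x → L1 (psi ρ σ τ) k (ty B x) (ty B' x) := by
    intro x hx
    obtain ⟨B'', he, oB'', -, hch⟩ := chn β ρ σ hb.toApI hρ hσ nρ nσ k B (asm k B') oB hsup
    have heq := uniq oB'.ok oB''.ok he
    have hJ : Jn (FC.ofFIC ρ) (FC.ofFIC σ) k (ty B x) (ty B'' x) := by
      refine Relation.ReflTransGen.lift (fun C => ty C x) ?_ _ _ hch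
      rintro C D ⟨oC, oD, -, h | h⟩
      · exact Or.inl (one.1 ρ k C D x hx oC.ok oD.ok h)
      · exact Or.inr (one.1 σ k C D x hx oC.ok oD.ok h)
    have hlast : (FC.ofFIC ρ).R k (ty B'' x) (ty B' x) := by
      refine (FC.ofFIC ρ).ext (fun j _ => rfl) (fun j hj => ?_) ((FC.ofFIC ρ).refl k (ty B'' x))
      show (B'' j).count x = (B' j).count x
      rw [heq j hj]
    exact law 1 (FC.ofFIC ρ) (FC.ofFIC σ) (FC.ofFIC τ) (FC.ofFIC (psi ρ σ τ))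
      (lrn β ρ hb hρ) (lrn β σ hb hσ) (lrn β τ hb hτ) (lrn β _ hb hβψ)
      (ndn β ρ hb.toApI hρ nρ) (ndn β σ hb.toApI hσ nσ) (ndn β τ hb.toApI hτ nτ)
      (fun k a b h h' => FIC.le_sup_left (FIC.inf ρ τ) (FIC.inf σ τ) _ _ ⟨h, h'⟩)
      (fun k a b h h' => FIC.le_sup_right (FIC.inf ρ τ) (FIC.inf σ τ) _ _ ⟨h, h'⟩)
      k (ty B x) (ty B' x) (one.1 τ k B B' x hx oB.ok oB'.ok hr) (hJ.tail (Or.inl hlast))
  obtain ⟨C, C', oC, oC', sC, sC', hsh, hC, hC'⟩ := shs β (psi ρ σ τ) hb hi hβψ nψ k B B' oB oB'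
    claim
  have tC : Two01 k C := by
    intro j hj c hc
    obtain ⟨i, hi, h⟩ := sC c ⟨j, hj, hc⟩
    exact tB i hi c h
  have tC' : Two01 k C' := by
    intro j hj c hc
    obtain ⟨i, hi, h⟩ := sC' c ⟨j, hj, hc⟩
    exact tB' i hi c h
  have h1 : RR (FIC.sup ρ σ) (asm k C) (asm k C') :=
    (FIC.sup ρ σ).trans ((FIC.sup ρ σ).symm (hψs _ _ hC))
      ((FIC.sup ρ σ).trans hsup (hψs _ _ hC'))
  have h2 : RR τ (asm k C) (asm k C') :=
    τ.trans (τ.symm (hψτ _ _ hC)) (τ.trans hr (hψτ _ _ hC'))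
  have h3 := hs ρ σ τ hρ hσ hτ nρ nσ nτ k C C' oC oC' tC tC' hsh h1 h2
  exact (psi ρ σ τ).trans hC ((psi ρ σ τ).trans h3 ((psi ρ σ τ).symm hC'))

end Pool.Agent.MWS.H81
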